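import Mathlib

namespace Pool.Agent.Results.MP_2c87a3_an.Mixed

open Complex Real

/-- the Fourier transform of the uniform probability measure on `E` -/
noncomputable def nuHat (E : Finset ℕ) (ξ : ℝ) : ℂ :=
  (1 / E.card : ℂ) * ∑ a ∈ E, exp (-2 * π * I * ξ * a)

/-- spectral pair in `ℤ_N` -/
def Spectral (N : ℕ) (A B : Finset ℕ) : Prop :=
  ∀ b ∈ B, ∀ b' ∈ B, b ≠ b' → nuHat A ((b - b') / N) = 0

/-- distributed spectral pair -/
def Distributed (M : ℕ) (A B : Finset ℕ) : Prop :=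
  ∀ b₁ ∈ B, ∀ b₁' ∈ B, b₁ ≠ b₁' → nuHat A ((b₁ - b₁') / M) = 0 ∨
    ∀ b₂ ∈ B, ∀ b₂' ∈ B, nuHat A ((b₁ - b₁') / M ^ 2 + (b₂ - b₂') / M) = 0

lemma one_add (x : ℝ) : 1 + exp (-2 * π * I * x) = 0 ↔ ∃ n : ℤ, x = n + 1 / 2 := by
  rw [add_comm, add_eq_zero_iff_eq_neg, ← exp_neg_pi_mul_I, exp_eq_exp_iff_exists_int]
  have : (π : ℂ) * I ≠ 0 := mul_ne_zero (by exact_mod_cast pi_ne_zero) I_ne_zero
  constructor
  · rintro ⟨n, h⟩
    refine ⟨-n, ?_⟩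
    apply ofReal_injective
    push_cast
    exact mul_left_cancel₀ this (by linear_combination -h / 2)
  · rintro ⟨n, rfl⟩
    exact ⟨-n, by push_cast; ring⟩

lemma zero_iff (ξ : ℝ) : nuHat {0, 3, 18, 21} ξ = 0 ↔
    (∃ n : ℤ, 3 * ξ = n + 1 / 2) ∨ ∃ n : ℤ, 18 * ξ = n + 1 / 2 := by
  rw [← one_add, ← one_add, ← mul_eq_zero, nuHat, mul_eq_zero, or_iff_right (by simp)]
  have : ∑ a ∈ ({0, 3, 18, 21} : Finset ℕ), exp (-2 * π * I * ξ * a) =
      (1 + exp (-2 * π * I * (3 * ξ : ℝ))) * (1 + exp (-2 * π * I * (18 * ξ : ℝ))) := by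
    simp only [add_mul, mul_add, ← Complex.exp_add]
    simp
    ring_nf
  rw [this]

lemma zero_int (k : ℤ) : nuHat {0, 3, 18, 21} (k / 576) = 0 ↔ k % 192 = 96 ∨ k % 32 = 16 := by
  rw [zero_iff]
  refine or_congr ⟨fun ⟨n, h⟩ => ?_, fun h => ⟨k / 192, ?_⟩⟩ ⟨fun ⟨n, h⟩ => ?_, fun h => ⟨k / 32, ?_⟩⟩
  · have : k = 192 * n + 96 := by exact_mod_cast (by linarith : (k : ℝ) = 192 * n + 96)
    omega
  · have : (k : ℝ) = 192 * (k / 192 : ℤ) + 96 := by exact_mod_cast (by omega : k = 192 * (k / 192) + 96)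
    linarith
  · have : k = 32 * n + 16 := by exact_mod_cast (by linarith : (k : ℝ) = 32 * n + 16)
    omega
  · have : (k : ℝ) = 32 * (k / 32 : ℤ) + 16 := by exact_mod_cast (by omega : k = 32 * (k / 32) + 16)
    linarith

theorem result : ∃ (M : ℕ) (A B : Finset ℕ), 3 ≤ M ∧ A ⊆ Finset.range M ∧ B ⊆ Finset.range M ∧
    A.card = B.card ∧ 1 < A.card ∧ A.card < M ∧ Distributed M A B ∧
    ¬ Spectral M A B ∧ ¬ Spectral (M ^ 2) A B := by
  have e1 : ∀ b b' : ℕ, ((b : ℝ) - b') / (24 : ℕ) = ((24 * (b - b' : ℤ) : ℤ) : ℝ) / 576 := by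
    intro b b'; push_cast; ring
  have e2 : ∀ b b' c c' : ℕ, ((b : ℝ) - b') / (24 : ℕ) ^ 2 + (c - c') / (24 : ℕ) =
      ((b - b' + 24 * (c - c') : ℤ) : ℝ) / 576 := by
    intro b b' c c'; push_cast; ring
  have e3 : ∀ b b' : ℕ, ((b : ℝ) - b') / (24 ^ 2 : ℕ) = ((b - b' : ℤ) : ℝ) / 576 := by
    intro b b'; push_cast; ring
  refine ⟨24, {0, 3, 18, 21}, {0, 4, 16, 20}, by norm_num, by decide, by decide, by decide,
    by decide, by decide, ?_, ?_, ?_⟩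
  · simp only [Distributed, e2]; simp only [e1, zero_int]; decide
  · simp only [Spectral, e1, zero_int]; decide
  · simp only [Spectral, e3, zero_int]; decide

end Pool.Agent.Results.MP_2c87a3_an.Mixed
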